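import Pool.Agent.Y132.AH.Full
import Pool.Agent.Hx88.AH.Step

/-!
# The coordinates of Hodge classes on products are Hodge classes
-/

set_option autoImplicit false
set_option linter.unusedSectionVars false

open CategoryTheory AlgebraicGeometry
open scoped TensorProduct

universe u

namespace Pool.Agent.Hx88.FF

open Pool.Agent.H914 Pool.Agent.H914.VarClass Pool.Agent.H914.VarClass.Obj
  Pool.Agent.H914.WeilCohomology Pool.Agent.H281R3.HT Pool.Agent.TH125.Gal Pool.Agent.W552
  Pool.Agent.Y132.AH Pool.Agent.Hx88.AH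

variable {k : Type u} [Field k] {𝒱 : VarClass k} {ops : CycleOps 𝒱}
  {W : WeilCohomology.{u, 0} ops} (Ψ : HodgeData W) (E : Embeddings W)

/-- the variety with the trivial action of the trivial group -/
abbrev tv (W : WeilCohomology.{u, 0} ops) (X : 𝒱.Obj) : GVar W Unit := ⟨X, 1⟩

section

variable {V Y : 𝒱.Obj} {N : ℕ} {m : Fin N → W.H V}

/-- Uniqueness of the coordinates. -/
theorem coord_zero (hli : LinearIndependent W.K m) {y : Fin N → W.H Y}
    (h : ∑ l, W.map (fst V Y) (m l) * W.map (snd V Y) (y l) = 0) (l : Fin N) : y l = 0 := by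
  obtain ⟨u, -, hu⟩ := exists_dual (W := W) (X := V) (C := ⊤)
    (fun x _ hx => W.nondeg x fun b => hx b Submodule.mem_top)
    (fun l => (Submodule.mem_top : m l ∈ (⊤ : Submodule W.K (W.H V)))) hli
  have h1 := crd_sum (V := tv W V) (Y := tv W Y) hu y l
  have h2 : crd (tv W V) (tv W Y) (u l) 0 = y l := by
    rw [← h1]
    exact congrArg _ h.symm
  rw [← h2, map_zero]

/-- The expansion. -/
theorem coord_exists {A : Set (W.H V)} (hA : A ⊆ Submodule.span W.K (Set.range m))
    (hli : LinearIndependent W.K m) {c : W.H (V.prod Y)}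
    (hc : c ∈ prods (V := tv W V) A (tv W Y)) :
    ∃ x : Fin N → W.H Y, c = ∑ l, W.map (fst V Y) (m l) * W.map (snd V Y) (x l) := by
  obtain ⟨u, -, hu⟩ := exists_dual (W := W) (X := V) (C := ⊤)
    (fun x _ hx => W.nondeg x fun b => hx b Submodule.mem_top)
    (fun l => (Submodule.mem_top : m l ∈ (⊤ : Submodule W.K (W.H V)))) hli
  exact ⟨_, expand_prods (V := tv W V) (Y := tv W Y) hA hu hc⟩

variable {i : Fin N → ℕ}

/-- The component of type `(a, b)` of a product with a class of type `(e, e)`. -/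
theorem prj_mul {e : ℕ} {a : W.H V} (ha : a ∈ Ψ.hodge V (e, e)) (p q : ℕ) (x : W.H Y) :
    prj (Ψ.isHodgeDec (V.prod Y)).isInternal (p, q) (W.map (fst V Y) a * W.map (snd V Y) x) =
      W.map (fst V Y) a * W.map (snd V Y)
        (if e ≤ p ∧ e ≤ q then prj (Ψ.isHodgeDec Y).isInternal (p - e, q - e) x else 0) := by
  refine int_ind (p := fun x => prj (Ψ.isHodgeDec (V.prod Y)).isInternal (p, q)
    (W.map (fst V Y) a * W.map (snd V Y) x) = W.map (fst V Y) a * W.map (snd V Y)
        (if e ≤ p ∧ e ≤ q then prj (Ψ.isHodgeDec Y).isInternal (p - e, q - e) x else 0))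
    (Ψ.isHodgeDec Y).isInternal x ?_ ?_ ?_
  · rintro ⟨s, t⟩ x hx
    have h1 : W.map (fst V Y) a * W.map (snd V Y) x ∈ Ψ.hodge (V.prod Y) (e + s, e + t) :=
      (Ψ.isHodgeDec _).mul_mem (Ψ.map_hodge _ _ _ ha) (Ψ.map_hodge _ _ _ hx)
    by_cases h2 : (e + s, e + t) = (p, q)
    · rw [Prod.mk.injEq] at h2
      obtain ⟨rfl, rfl⟩ := h2
      rw [prj_same _ h1, if_pos ⟨Nat.le_add_right _ _, Nat.le_add_right _ _⟩,
        Nat.add_sub_cancel_left, Nat.add_sub_cancel_left, prj_same _ hx]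
    · rw [prj_ne _ h2 h1]
      split_ifs with h3
      · rw [prj_ne _ (i := (p - e, q - e)) (j := (s, t)) ?_ hx, map_zero, mul_zero]
        intro h4
        rw [Prod.mk.injEq] at h4
        exact h2 (Prod.ext (by change e + s = p; omega) (by change e + t = q; omega))
      · rw [map_zero, mul_zero]
  · split_ifs <;> simp
  · intro x y hx hy
    rw [map_add, mul_add, map_add, hx, hy, ← mul_add, ← map_add]
    split_ifs
    · simp only [map_add]
    · rw [add_zero]

/-- **The coordinates of a Hodge class are Hodge classes.** -/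
theorem coord_hodge (hm : ∀ l, IsHodge Ψ V (i l) (m l)) (hli : LinearIndependent W.K m)
    {x : Fin N → W.H Y} {j : ℕ}
    (hc : IsHodge Ψ (V.prod Y) j (∑ l, W.map (fst V Y) (m l) * W.map (snd V Y) (x l)))
    (l : Fin N) : x l = 0 ∨ (i l ≤ j ∧ IsHodge Ψ Y (j - i l) (x l)) := by
  have hprj : ∀ s t : ℕ, (s + i l, t + i l) ≠ (j, j) →
      prj (Ψ.isHodgeDec Y).isInternal (s, t) (x l) = 0 := by
    intro s t hst
    have h1 : prj (Ψ.isHodgeDec (V.prod Y)).isInternal (s + i l, t + i l)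
        (∑ l, W.map (fst V Y) (m l) * W.map (snd V Y) (x l)) = 0 :=
      prj_ne _ (Ne.symm hst) hc.1
    rw [map_sum, Finset.sum_congr rfl fun l' _ => prj_mul Ψ (hm l').1 _ _ (x l')] at h1
    have h2 := coord_zero hli h1 l
    beta_reduce at h2
    rw [if_pos ⟨Nat.le_add_left _ _, Nat.le_add_left _ _⟩, Nat.add_sub_cancel,
      Nat.add_sub_cancel] at h2
    exact h2
  have hrat : ∀ σ, Ψ.coeff Y σ (x l) = x l := by
    intro σ
    have h1 : Ψ.coeff _ σ (∑ l, W.map (fst V Y) (m l) * W.map (snd V Y) (x l)) =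
        ∑ l, W.map (fst V Y) (m l) * W.map (snd V Y) (x l) := hc.2 σ
    rw [map_sum] at h1
    have h2 : ∀ l', Ψ.coeff _ σ (W.map (fst V Y) (m l') * W.map (snd V Y) (x l')) =
        W.map (fst V Y) (m l') * W.map (snd V Y) (Ψ.coeff Y σ (x l')) := by
      intro l'
      have h3 : Ψ.coeff V σ (m l') = m l' := (hm l').2 σ
      rw [map_mul, Ψ.map_coeff, Ψ.map_coeff, h3]
    rw [Finset.sum_congr rfl fun l' _ => h2 l', ← sub_eq_zero, ← Finset.sum_sub_distrib] at h1
    have h3 : ∑ l', W.map (fst V Y) (m l') * W.map (snd V Y) (Ψ.coeff Y σ (x l') - x l') = 0 := by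
      rw [← h1]
      refine Finset.sum_congr rfl fun l' _ => ?_
      rw [map_sub, mul_sub]
    exact sub_eq_zero.1 (coord_zero hli h3 l)
  by_cases hij : i l ≤ j
  · right
    refine ⟨hij, mem_of_prj (Ψ.isHodgeDec Y).isInternal ?_, hrat⟩
    rintro ⟨s, t⟩ hst
    refine hprj s t fun h => hst ?_
    rw [Prod.mk.injEq] at h
    exact Prod.ext (by change s = j - i l; omega) (by change t = j - i l; omega)
  · left
    refine ext_prj (Ψ.isHodgeDec Y).isInternal ?_
    rintro ⟨s, t⟩
    rw [map_zero]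
    refine hprj s t fun h => ?_
    rw [Prod.mk.injEq] at h
    omega

end

/-- Finite sums. -/
theorem isAbs_sum {X : 𝒱.Obj} {j N : ℕ} {a : Fin N → W.H X} (ha : ∀ l, IsAbsHodge Ψ E X j (a l)) :
    IsAbsHodge Ψ E X j (∑ l, a l) := by
  classical
  have h1 : ∀ s : Finset (Fin N), IsAbsHodge Ψ E X j (∑ l ∈ s, a l) := by
    intro s
    induction s using Finset.induction_on with
    | empty => rw [Finset.sum_empty]; exact isAbs_zero Ψ E X j
    | insert l s hl ih => rw [Finset.sum_insert hl]; exact isAbs_add Ψ E (ha l) ih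
  exact h1 _

/-- **Absolute Hodge classes on the product.** -/
theorem abs_prods {V Y : 𝒱.Obj} {A : Set (W.H V)} (hA : A ⊆ algSpan W V)
    (hY : AllAbsolute Ψ E Y) {j : ℕ} {c : W.H (V.prod Y)} (hc : IsHodge Ψ (V.prod Y) j c)
    (hcA : c ∈ prods (V := tv W V) A (tv W Y)) : IsAbsHodge Ψ E (V.prod Y) j c := by
  obtain ⟨N, m, hm, hli, hmA⟩ := Pool.Agent.Hx88.AH.exists_basis
    (W := W) (X := V) (⋃ j, algClasses W V j)
  have hA' : A ⊆ Submodule.span W.K (Set.range m) := by
    refine hA.trans ?_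
    exact Submodule.span_le.2 hmA
  obtain ⟨x, rfl⟩ := coord_exists hA' hli hcA
  choose i hi using fun l => Set.mem_iUnion.1 (hm l)
  have hmabs : ∀ l, IsAbsHodge Ψ E V (i l) (m l) := by
    intro l
    obtain ⟨z, hz, hzl⟩ := hi l
    rw [← hzl]
    exact isAbs_cyc Ψ E hz
  refine isAbs_sum Ψ E fun l => ?_
  rcases coord_hodge Ψ (fun l => (hmabs l).1) hli hc l with h | ⟨h1, h2⟩
  · rw [h, map_zero, mul_zero]
    exact isAbs_zero Ψ E _ j
  · have h3 := isAbs_mul Ψ E (isAbs_map Ψ E (fst V Y) (hmabs l))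
      (isAbs_map Ψ E (snd V Y) (hY _ _ h2))
    rwa [Nat.add_sub_cancel' h1] at h3

end Pool.Agent.Hx88.FF
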