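import Pool.Agent.Y132.AH.FDefs
import Pool.Agent.V11219.SstDefs

/-!
# The Hodge realization on motives of very general members of families with semistable degenerations:
# definitions
-/

set_option autoImplicit false

open CategoryTheory AlgebraicGeometry

universe u

namespace Pool.Agent.Hx88.FF

open Pool.Agent.TH125.Gal Pool.Agent.V11219.Loc Pool.Agent.V11219.Sst Pool.Agent.Y132.AH

section Alg

variable {K : Type} [Field K] {A B B' : Type} [Ring A] [Algebra K A] [Ring B] [Algebra K B]
  [Ring B'] [Algebra K B'] {Γ : Type} [Group Γ]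

/-- The group `Γ` acts on the cohomology `A` of a variety by automorphisms which preserve the degrees
and the trace and permute the classes of algebraic cycles, and every Hodge class is fixed by a
subgroup of finite index. -/
structure IsMonodromy {gr : ℕ → Submodule K A} {n : ℕ} {tr : A →ₗ[K] K} {C : ℕ → Set A}
    (Ψ : HodgeAlg gr n tr C) (ρ : Act K A Γ) : Prop where
  gr_mem : ∀ g i, ∀ a ∈ gr i, ρ g a ∈ gr i
  tr_act : ∀ g a, tr (ρ g a) = tr a
  cl_act : ∀ g j, ∀ c ∈ C j, ρ g c ∈ C j
  hodge_fix : ∀ j c, HodgeCls Ψ j c → ∃ Δ : Subgroup Γ, Δ.FiniteIndex ∧ ∀ g ∈ Δ, ρ g c = c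

/-- The homomorphisms `f` and `f'` are equivariant. -/
def Comm (f : B →ₐ[K] A) (f' : B' →ₐ[K] A) (σ : Act K B Γ) (σ' : Act K B' Γ)
    (ρ : Act K A Γ) : Prop :=
  ∀ g, (∀ b, ρ g (f b) = f (σ g b)) ∧ ∀ b, ρ g (f' b) = f' (σ' g b)

/-- The dimension `n` is odd, the space `T` is in the middle degree and irreducible under all
subgroups of finite index, and the set `N` satisfies `SmallDefects` on it. -/
def Good (gr : ℕ → Submodule K A) (n : ℕ) (T : Submodule K A) (ρ : Act K A Γ) (N : Set Γ) : Prop :=
  Odd n ∧ T ≤ gr n ∧ IrredAct ρ T ∧ SmallDefects T ρ N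

end Alg

open Pool.Agent.H914 Pool.Agent.H914.VarClass Pool.Agent.H914.VarClass.Obj
  Pool.Agent.H914.WeilCohomology

variable {k : Type u} [Field k] {𝒱 : VarClass k} {ops : CycleOps 𝒱}

/-- A variety with an action of the group `Γ` on the cohomology (the member over the base point of a
family over a base with the fundamental group `Γ`). -/
structure MVar (W : WeilCohomology.{u, 0} ops) (Γ : Type) [Group Γ] where
  /-- the variety -/
  X : 𝒱.Obj
  /-- the action -/
  act : Act W.K (W.H X) Γ

variable {W : WeilCohomology.{u, 0} ops} {Γ : Type} [Group Γ]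

/-- `C` is the product of `A` and `B`, with the action on the cohomology which is compatible with
the projections. -/
inductive IsProd (A B : MVar W Γ) : MVar W Γ → Prop
  | mk (υ : Act W.K (W.H (A.X.prod B.X)) Γ) :
      Comm (W.map (fst A.X B.X)) (W.map (snd A.X B.X)) A.act B.act υ → IsProd A B ⟨_, υ⟩

/-- The product of two members of `G` is a member of `G`. -/
def ClosedProd (G : Set (MVar W Γ)) : Prop := ∀ A ∈ G, ∀ B ∈ G, ∃ C ∈ G, IsProd A B C

/-- The class `G` is closed under products, and its members satisfy `IsMonodromy`. (The members over a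
very general point of all families over the same base.) -/
structure VeryGeneral (Ψ : HodgeData W) (G : Set (MVar W Γ)) : Prop where
  prod : ClosedProd G
  monodromy : ∀ A ∈ G, IsMonodromy (Ψ.on A.X) A.act

/-- The varieties in the class `𝒵`. -/
def vars (𝒵 : Set (MVar W Γ)) : Set 𝒱.Obj := {Y | ∃ Z ∈ 𝒵, Z.X = Y}

/-- `(g - 1) ^ 2 = 0` on the transcendental cohomology. -/
def QuadOn (X : MVar W Γ) (g : Γ) : Prop := Quad (transcendental W X.X) X.act g

/-- The elements `g` of `Γ` which act trivially on the cohomology of `Z` and with `(g - 1) ^ 2 = 0` on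
the transcendental cohomology of all `X i`. -/
def degen {ι : Type} (X : ι → MVar W Γ) (Z : MVar W Γ) : Set Γ :=
  {g | TrivAct Z.act g ∧ ∀ i, QuadOn (X i) g}

/-- Homological and numerical equivalence coincide for `X`, and the conditions `Good` are satisfied. -/
def GoodOn (X : MVar W Γ) (N : Set Γ) : Prop :=
  HomEqNum W X.X ∧ Good (W.gr X.X) X.X.dim (transcendental W X.X) X.act N

/-- The transcendental cohomologies are isomorphic up to scalars. -/
def SameT (A B : MVar W Γ) : Prop :=
  IsoUp (transcendental W A.X) (transcendental W B.X) A.act B.act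

/-- The odd-dimensional varieties `X i` degenerate simultaneously: homological and numerical
equivalence coincide for them, their transcendental cohomology is in the middle degree and
irreducible under all subgroups of finite index, and no two of them are isomorphic up to scalars;
and for every `i` the set `degen X Z` satisfies `SmallDefects` on it. -/
structure Simultaneous {ι : Type} (X : ι → MVar W Γ) (Z : MVar W Γ) : Prop where
  good : ∀ i, GoodOn (X i) (degen X Z)
  distinct : ∀ i j, i ≠ j → ¬ SameT (X i) (X j)

end Pool.Agent.Hx88.FF
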