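import Pool.Agent.Hx88.FF.Tower

/-!
# Full faithfulness of the Hodge realization on the motives of very general members of families
-/

set_option autoImplicit false
set_option linter.unusedSectionVars false

open CategoryTheory AlgebraicGeometry
open scoped TensorProduct

universe u

namespace Pool.Agent.Hx88.FF

open Pool.Agent.H914 Pool.Agent.H914.VarClass Pool.Agent.H914.VarClass.Obj
  Pool.Agent.H914.WeilCohomology Pool.Agent.H281R3.HT Pool.Agent.TH125.Gal Pool.Agent.W552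
  Pool.Agent.Y132.AH Pool.Agent.Hx88.AH Pool.Agent.Hx88.NS Pool.Agent.Hx88.SS
  Pool.Agent.N179.TL Pool.Agent.N179.FG Pool.Agent.N179.FO
  Pool.Agent.V11219.Loc Pool.Agent.V11219.Sst

variable {k : Type u} [Field k] {𝒱 : VarClass k} {ops : CycleOps 𝒱}
  {W : WeilCohomology.{u, 0} ops} {Γ : Type} [Group Γ] {Ψ : HodgeData W}

/-- the trivial character -/
abbrev one' (W : WeilCohomology.{u, 0} ops) (Γ : Type) [Group Γ] : Γ →* W.Kˣ := 1

theorem isGaloisVar {A : MVar W Γ} (h : IsMonodromy (Ψ.on A.X) A.act) :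
    IsGaloisVar (one' W Γ) (toG A) where
  gr_mem := h.gr_mem
  tr_act g a := by
    rw [MonoidHom.one_apply, Units.val_one, one_pow, one_mul]
    exact h.tr_act g a
  cl_act g j c hc := by
    refine ⟨_, h.cl_act g j c hc, ?_⟩
    rw [MonoidHom.one_apply, Units.val_one, one_pow, one_smul]
    rfl
  cl_fix j c hc := by
    obtain ⟨z, hz, rfl⟩ := hc
    obtain ⟨Δ, hΔ, hfix⟩ := h.hodge_fix j _ (isHodge_cyc Ψ hz)
    refine ⟨Δ, hΔ, fun g hg => ?_⟩
    rw [MonoidHom.one_apply, Units.val_one, one_pow, one_smul]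
    exact hfix g hg

theorem times {κ : Type} {G : Set (MVar W Γ)} (hG : VeryGeneral Ψ G) {X : κ → MVar W Γ}
    (hX : ∀ i, X i ∈ G) {Z : MVar W Γ} (h : Simultaneous X Z) :
    SemistableTimes (one' W Γ) (fun i => toG (X i)) (toG Z) (ptVar W Γ) where
  odd i := (h.good i).2.1
  galois i := isGaloisVar (hG.monodromy _ (hX i))
  homNum i := (h.good i).1
  middle i := (h.good i).2.2.1
  irreducible i := (h.good i).2.2.2.1
  distinct i j hij := h.distinct i j hij
  small i := by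
    have h1 : quadSet (one' W Γ) (fun i => toG (X i)) (toG Z) (ptVar W Γ) = degen X Z := by
      ext g
      constructor
      · rintro ⟨-, h2, -, h3⟩
        exact ⟨h2, h3⟩
      · rintro ⟨h2, h3⟩
        exact ⟨rfl, h2, fun _ => rfl, h3⟩
    rw [h1]
    exact (h.good i).2.2.2.2

/-- The Lie algebras kill the equivariant maps to the cohomology of a tower. -/
theorem ktn_tower {κ : Type} [Fintype κ] [DecidableEq κ] [IsAlgClosed W.K] {X : κ → GVar W Γ}
    {Z : GVar W Γ} (h : SemistableTimes (one' W Γ) X Z (ptVar W Γ)) {S : Set κ} {Y : GVar W Γ}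
    (hY : PowTower X Z S Y) {i : κ} (hi : i ∉ S) : KTN h.gal (lin Y) i := by
  refine KTN.of_inj h.gal (h.tower hY i hi)
    ((TensorProduct.mk W.K (W.H Y.X) (ptVar W Γ).M).flip (1 : W.K)) ?_ fun g x => ?_
  · intro a b hab
    have h1 : (a ⊗ₜ[W.K] (1 : W.K) : W.H Y.X ⊗[W.K] W.K) = b ⊗ₜ[W.K] (1 : W.K) := hab
    have h2 := congrArg (fun x : W.H Y.X ⊗[W.K] W.K => TensorProduct.rid W.K (W.H Y.X) x) h1
    simpa using h2
  · exact (TensorProduct.map_tmul (Y.act g).toLinearMap ((ptVar W Γ).act g) x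
      (show (ptVar W Γ).M from (1 : W.K))).symm

/-- **Absolute Hodge classes on the towers.** -/
theorem tower_abs {κ : Type} [Finite κ] [IsAlgClosed W.K] (E : Embeddings W)
    {G : Set (MVar W Γ)} (hG : VeryGeneral Ψ G) {X : κ → MVar W Γ} (hX : ∀ i, X i ∈ G)
    {Z : MVar W Γ} (h : Simultaneous X Z) (habs : AllAbsolute Ψ E Z.X)
    {S : Set κ} {Y : MVar W Γ} (hY : Tw G X Z S Y) : AllAbsolute Ψ E Y.X := by
  classical
  have := Fintype.ofFinite κ
  have ht := times hG hX h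
  induction hY with
  | base => exact habs
  | @step S Y V Y' i n hT hi hV hp hY' hP ih =>
    have hfull := fullRN_of ht.gal (ktn_tower ht (hT.pow ht.odd) hi) 0 (ht.middle i) (ht.odd i)
    obtain ⟨A, hA', hA, hs⟩ := splits hp (ht.gal i) (ht.homNum i) (ht.middle i) (ht.odd i)
    intro j c hc
    obtain ⟨Δ, hΔ, hfix⟩ := (hG.monodromy _ hY').hodge_fix j c hc
    obtain ⟨υ, h12⟩ := hP
    have h1 : Equivariant (A := (⟨(toG V).X.prod (toG Y).X, υ⟩ : GVar W Γ)) (B := toG V)
        (fst (toG V).X (toG Y).X) := fun g a => (h12 g).1 a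
    have h2 : Equivariant (A := (⟨(toG V).X.prod (toG Y).X, υ⟩ : GVar W Γ)) (B := toG Y)
        (snd (toG V).X (toG Y).X) := fun g a => (h12 g).2 a
    have h3 : c ∈ prods A (toG Y) := by
      refine mem_prods (χ := one' W Γ) h1 h2 (hs _ (lin (toG Y)) hfull) (j := j) hΔ
        fun g hg => ?_
      rw [MonoidHom.one_apply, Units.val_one, one_pow, one_smul]
      exact hfix g hg
    exact abs_prods Ψ E hA' ih hc h3

/-- The product for a list in a finite subset. -/
theorem prodList_attach {ι : Type} (X : ι → 𝒱.Obj) (Z : 𝒱.Obj) (s : Finset ι) (L : List s) :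
    prodList (fun i : s => X i) Z L = prodList X Z (L.map Subtype.val) := by
  induction L with
  | nil => rfl
  | cons i L ih =>
    change (X i).prod (prodList (fun i : s => X i) Z L) = (X i).prod _
    rw [ih]

/-- **Full faithfulness.** -/
theorem full_faithful [IsAlgClosed W.K] (E : Embeddings W) {G 𝒵 : Set (MVar W Γ)}
    (hG : VeryGeneral Ψ G) (h𝒵 : 𝒵 ⊆ G) (h𝒵' : ClosedProd 𝒵) {ι : Type} {X : ι → MVar W Γ}
    (hX : ∀ i, X i ∈ G) (h : ∀ Z ∈ 𝒵, ∀ s : Finset ι, Simultaneous (fun i : s => X i) Z) :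
    FullyFaithfulOn Ψ E (productsWith (vars 𝒵) fun i => (X i).X) ↔
      FullyFaithfulOn Ψ E (vars 𝒵) := by
  classical
  constructor
  · intro hf A hA B hB
    exact hf A ⟨_, hA, [], ⟨Iso.refl _⟩⟩ B ⟨_, hB, [], ⟨Iso.refl _⟩⟩
  · intro hf
    refine full_of_abs Ψ E ?_ ?_
    · rintro _ ⟨Z, hZ, rfl⟩ _ ⟨Z', hZ', rfl⟩
      obtain ⟨C, hC, hP⟩ := h𝒵' Z hZ Z' hZ'
      exact ⟨C, hC, isProd_X hP⟩
    · rintro _ ⟨Z, hZ, rfl⟩ L
      have hL : L = (L.attach.map fun i : {i // i ∈ L} =>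
          (⟨i.1, List.mem_toFinset.2 i.2⟩ : L.toFinset)).map Subtype.val := by
        rw [List.map_map]
        exact (List.attach_map_subtype_val L).symm
      rw [hL, ← prodList_attach (fun i => (X i).X) Z.X L.toFinset]
      obtain ⟨Y, hY, ⟨e⟩⟩ := exists_tw hG.prod (X := fun i : L.toFinset => X i)
        (fun i => hX i) (h𝒵 hZ) _ (L.attach.map fun i : {i // i ∈ L} =>
          (⟨i.1, List.mem_toFinset.2 i.2⟩ : L.toFinset)) rfl
      exact abs_iso Ψ E e.symm (tower_abs E hG (X := fun i : L.toFinset => X i) (fun i => hX i)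
        (h Z hZ L.toFinset)
        (abs_of_full Ψ E hf ⟨Z, hZ, rfl⟩) hY)

end Pool.Agent.Hx88.FF
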