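import Pool.Agent.Hx88.FF.Defs
import Pool.Agent.Hx88.FF.Coord
import Pool.Agent.Hx88.SS.Main

/-!
# Towers of products of powers of the members of the family
-/

set_option autoImplicit false
set_option linter.unusedSectionVars false

open CategoryTheory AlgebraicGeometry
open scoped TensorProduct

universe u

namespace Pool.Agent.Hx88.FF

open Pool.Agent.H914 Pool.Agent.H914.VarClass Pool.Agent.H914.VarClass.Obj
  Pool.Agent.H914.WeilCohomology Pool.Agent.H281R3.HT Pool.Agent.TH125.Gal Pool.Agent.W552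
  Pool.Agent.Y132.AH Pool.Agent.Hx88.AH Pool.Agent.Hx88.NS Pool.Agent.Hx88.SS
  Pool.Agent.N179.TL Pool.Agent.N179.FG Pool.Agent.N179.FO
  Pool.Agent.V11219.Loc Pool.Agent.V11219.Sst

variable {k : Type u} [Field k] {𝒱 : VarClass k} {ops : CycleOps 𝒱}
  {W : WeilCohomology.{u, 0} ops} {Γ : Type} [Group Γ]

/-- The conversion. -/
def toG (X : MVar W Γ) : GVar W Γ := ⟨X.X, X.act⟩

/-- the point -/
noncomputable def ptVar (W : WeilCohomology.{u, 0} ops) (Γ : Type) [Group Γ] : AnyVar W Γ where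
  M := W.K
  gr := fun _ => ⊤
  act := 1
  cyc := fun _ _ => ⊤
  pull := fun _ _ _ _ => Submodule.mem_top
  mul := fun _ _ _ _ _ _ _ => Submodule.mem_top
  push := fun _ _ _ _ _ => Submodule.mem_top

theorem isProd_conv {A B C : MVar W Γ} (h : IsProd A B C) : IsProdVar (toG A) (toG B) (toG C) := by
  obtain ⟨υ, h1⟩ := h
  exact IsProdVar.mk (A := toG A) (B := toG B) υ (fun g a => (h1 g).1 a) (fun g a => (h1 g).2 a)

theorem isProd_X {A B C : MVar W Γ} (h : IsProd A B C) : C.X = A.X.prod B.X := by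
  obtain ⟨υ, h1⟩ := h
  rfl

/-- Powers in the class `G`. -/
theorem exists_power {G : Set (MVar W Γ)} (hG : ClosedProd G) {X : MVar W Γ} (hX : X ∈ G) (n : ℕ) :
    ∃ V ∈ G, IsPower (toG X) n (toG V) ∧
      ∀ {κ : Type} (Y : κ → 𝒱.Obj) (Z : 𝒱.Obj) (i : κ) (L : List κ), Y i = X.X →
        Nonempty (prodList Y Z (List.replicate (n + 1) i ++ L) ≅ V.X.prod (prodList Y Z L)) := by
  induction n with
  | zero =>
    refine ⟨X, hX, IsPower.one, fun Y Z i L hi => ⟨?_⟩⟩
    have h1 : prodList Y Z (List.replicate (0 + 1) i ++ L) = (Y i).prod (prodList Y Z L) := rfl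
    rw [h1, hi]
  | succ n ih =>
    obtain ⟨V, hV, hp, hiso⟩ := ih
    obtain ⟨V', hV', hP⟩ := hG X hX V hV
    refine ⟨V', hV', IsPower.succ hp (isProd_conv hP), fun Y Z i L hi => ?_⟩
    obtain ⟨e⟩ := hiso Y Z i L hi
    have h1 : prodList Y Z (List.replicate (n + 1 + 1) i ++ L) =
        (Y i).prod (prodList Y Z (List.replicate (n + 1) i ++ L)) := rfl
    rw [h1, hi, isProd_X hP]
    exact ⟨prodIso (Iso.refl _) e ≪≫ (assocIso _ _ _).symm⟩

/-- Permutations of the factors. -/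
theorem iso_perm {κ : Type} (X : κ → 𝒱.Obj) (Z : 𝒱.Obj) {L L' : List κ} (h : L.Perm L') :
    Nonempty (prodList X Z L ≅ prodList X Z L') := by
  induction h with
  | nil => exact ⟨Iso.refl _⟩
  | cons i _ ih =>
    obtain ⟨e⟩ := ih
    exact ⟨prodIso (Iso.refl (X i)) e⟩
  | swap i j L => exact ⟨exchIso (X j) (X i) (prodList X Z L)⟩
  | trans _ _ ih ih' =>
    obtain ⟨e⟩ := ih
    obtain ⟨e'⟩ := ih'
    exact ⟨e ≪≫ e'⟩

/-- Towers in the class `G`. -/
inductive Tw {κ : Type} (G : Set (MVar W Γ)) (X : κ → MVar W Γ) (Z : MVar W Γ) :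
    Set κ → MVar W Γ → Prop
  | base : Tw G X Z ∅ Z
  | step {S : Set κ} {Y V Y' : MVar W Γ} (i : κ) (n : ℕ) : Tw G X Z S Y → i ∉ S → V ∈ G →
      IsPower (toG (X i)) n (toG V) → Y' ∈ G → IsProd V Y Y' → Tw G X Z (insert i S) Y'

theorem Tw.mem {κ : Type} {G : Set (MVar W Γ)} {X : κ → MVar W Γ} {Z : MVar W Γ} (hZ : Z ∈ G)
    {S : Set κ} {Y : MVar W Γ} (h : Tw G X Z S Y) : Y ∈ G := by
  cases h with
  | base => exact hZ
  | step i n _ _ _ _ hY _ => exact hY

theorem Tw.pow {κ : Type} {G : Set (MVar W Γ)} {X : κ → MVar W Γ} {Z : MVar W Γ}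
    (hodd : ∀ i, Odd (X i).X.dim) {S : Set κ} {Y : MVar W Γ} (h : Tw G X Z S Y) :
    PowTower (fun i => toG (X i)) (toG Z) S (toG Y) := by
  induction h with
  | base => exact PowTower.base
  | step i n _ hi _ hV _ hP ih =>
    exact PowTower.step i n ih hi
      (fun h => absurd h (Nat.not_even_iff_odd.2 (hodd i))) hV (isProd_conv hP)

/-- All products are towers. -/
theorem exists_tw {κ : Type} [DecidableEq κ] {G : Set (MVar W Γ)} (hG : ClosedProd G)
    {X : κ → MVar W Γ} (hX : ∀ i, X i ∈ G) {Z : MVar W Γ} (hZ : Z ∈ G) (T : Finset κ) :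
    ∀ L : List κ, L.toFinset = T → ∃ Y, Tw G X Z (T : Set κ) Y ∧
      Nonempty (prodList (fun i => (X i).X) Z.X L ≅ Y.X) := by
  induction T using Finset.induction_on with
  | empty =>
    intro L hL
    rw [List.toFinset_eq_empty_iff] at hL
    subst hL
    rw [Finset.coe_empty]
    exact ⟨Z, Tw.base, ⟨Iso.refl _⟩⟩
  | insert i T hi ih =>
    intro L hL
    have hmem : i ∈ L := List.mem_toFinset.1 (hL ▸ Finset.mem_insert_self i T)
    obtain ⟨n, hn⟩ : ∃ n, L.count i = n + 1 :=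
      ⟨L.count i - 1, by have := List.count_pos_iff.2 hmem; omega⟩
    have hL' : (L.filter (· ≠ i)).toFinset = T := by
      ext j
      rw [List.mem_toFinset, List.mem_filter, ← List.mem_toFinset, hL, Finset.mem_insert]
      simp only [decide_eq_true_eq]
      constructor
      · rintro ⟨h1 | h1, h2⟩
        · exact absurd h1 h2
        · exact h1
      · intro h1
        exact ⟨Or.inr h1, fun h2 => hi (h2 ▸ h1)⟩
    obtain ⟨Y, hY, ⟨e⟩⟩ := ih _ hL'
    obtain ⟨V, hV, hp, hiso⟩ := exists_power hG (hX i) n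
    obtain ⟨Y', hY', hP⟩ := hG V hV Y (hY.mem hZ)
    have hperm : L.Perm (List.replicate (n + 1) i ++ L.filter (· ≠ i)) := by
      have h1 := List.filter_append_perm (fun j => j = i) L
      have h2 : L.filter (fun j => j = i) = List.replicate (n + 1) i := by
        rw [← hn]
        exact List.filter_eq i
      have h3 : L.filter (fun j => !decide (j = i)) = L.filter (· ≠ i) := by
        congr 1
        funext j
        simp
      rw [h2, h3] at h1
      exact h1.symm
    obtain ⟨e1⟩ := iso_perm (fun i => (X i).X) Z.X hperm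
    obtain ⟨e2⟩ := hiso (fun i => (X i).X) Z.X i (L.filter (· ≠ i)) rfl
    refine ⟨Y', ?_, ⟨e1 ≪≫ e2 ≪≫ ?_⟩⟩
    · rw [Finset.coe_insert]
      exact Tw.step i n hY (by simpa using hi) hV hp hY' hP
    · rw [isProd_X hP]
      exact prodIso (Iso.refl _) e

end Pool.Agent.Hx88.FF
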